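import Mathlib

set_option autoImplicit false

/-!
# Repeated angles among points in six-dimensional space

For every angle `0 < α < π` the maximum number `B_6(n, α)` of ordered triples with angle `α` among
`n` points of `ℝ⁶` is of order `n³`.

Write `ℝ⁶ = ℝ² × ℝ² × ℝ²`.  Take `X` on the circle `(r u, 0, -e)`, `Z` on the circle `(0, r u, e)`
(`u` a unit vector, `e = (1, 0)`) and `Y` in the third plane, `(0, 0, y)`.  The cosine of the angle
`XYZ` is `(|y|² - 1) / (√(r² + |y + e|²) √(r² + |y - e|²))`: it depends on `y` only, it is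
`-1 / (1 + r²)` at `y = 0` and tends to `1` at infinity.  So on each ray from `0` there is a point
`y` where it is `cos α`.
-/

namespace Pool.Agent.Results.MP_6251d3_co.CubicAngles

open EuclideanGeometry Finset

open Classical in
/-- The number of ordered triples `(X, Y, Z)` of distinct points of `S` with angle `XYZ` equal
to `α`. -/
noncomputable def angleCount {k : ℕ} (S : Finset (EuclideanSpace ℝ (Fin k))) (α : ℝ) : ℕ :=
  ((S ×ˢ S ×ˢ S).filter fun t =>
    t.1 ≠ t.2.1 ∧ t.1 ≠ t.2.2 ∧ t.2.1 ≠ t.2.2 ∧ ∠ t.1 t.2.1 t.2.2 = α).card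

/-- `B_k(n, α)`: the maximum of `angleCount S α` over the sets `S` of `n` points of `ℝ^k`. -/
noncomputable def B (k n : ℕ) (α : ℝ) : ℕ :=
  sSup {c : ℕ | ∃ S : Finset (EuclideanSpace ℝ (Fin k)), S.card = n ∧ c = angleCount S α}

theorem angleCount_le {k : ℕ} (S : Finset (EuclideanSpace ℝ (Fin k))) (α : ℝ) :
    angleCount S α ≤ S.card ^ 3 := by
  unfold angleCount
  refine (Finset.card_filter_le _ _).trans ?_
  rw [Finset.card_product, Finset.card_product]
  exact le_of_eq (by ring)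

theorem le_B {k : ℕ} (S : Finset (EuclideanSpace ℝ (Fin k))) (α : ℝ) :
    angleCount S α ≤ B k S.card α := by
  apply le_csSup
  · refine ⟨S.card ^ 3, ?_⟩
    rintro c ⟨T, hT, rfl⟩
    rw [← hT]
    exact angleCount_le T α
  · exact ⟨S, rfl, rfl⟩

theorem B_le (k n : ℕ) (α : ℝ) : B k n α ≤ n ^ 3 := by
  unfold B
  rcases Set.eq_empty_or_nonempty
    {c : ℕ | ∃ S : Finset (EuclideanSpace ℝ (Fin k)), S.card = n ∧ c = angleCount S α} with h | h
  · rw [h, csSup_empty]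
    exact Nat.zero_le _
  · apply csSup_le h
    rintro c ⟨T, hT, rfl⟩
    rw [← hT]
    exact angleCount_le T α

/-- On each ray there is a point with the prescribed value of the cosine. -/
theorem exists_t {C ρ : ℝ} (hC : C < 1) (hρ : 0 < ρ) (hρC : -1 < C * (1 + ρ)) (c : ℝ)
    (hc : |c| ≤ 1) :
    ∃ t : ℝ, 0 < t ∧
      (t ^ 2 - 1) / (√(1 + ρ + t ^ 2 + 2 * t * c) * √(1 + ρ + t ^ 2 - 2 * t * c)) = C := by
  have habs := abs_le.1 hc
  have hA : ∀ t : ℝ, 0 < 1 + ρ + t ^ 2 + 2 * t * c := by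
    intro t
    nlinarith [sq_nonneg (t + c), sq_nonneg c, mul_nonneg (sub_nonneg.2 habs.2)
      (by linarith [habs.1] : (0:ℝ) ≤ 1 + c)]
  have hB : ∀ t : ℝ, 0 < 1 + ρ + t ^ 2 - 2 * t * c := by
    intro t
    nlinarith [sq_nonneg (t - c), sq_nonneg c, mul_nonneg (sub_nonneg.2 habs.2)
      (by linarith [habs.1] : (0:ℝ) ≤ 1 + c)]
  set g : ℝ → ℝ := fun t =>
    (t ^ 2 - 1) / (√(1 + ρ + t ^ 2 + 2 * t * c) * √(1 + ρ + t ^ 2 - 2 * t * c)) with hg
  have hden : ∀ t, 0 < √(1 + ρ + t ^ 2 + 2 * t * c) * √(1 + ρ + t ^ 2 - 2 * t * c) := fun t =>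
    mul_pos (Real.sqrt_pos.2 (hA t)) (Real.sqrt_pos.2 (hB t))
  have hcont : Continuous g := by
    apply Continuous.div (by fun_prop) (by fun_prop)
    intro t
    exact (hden t).ne'
  have h0 : g 0 < C := by
    have h1 : g 0 = -1 / (1 + ρ) := by
      simp only [hg]
      norm_num
      rw [← Real.sqrt_mul_self (by positivity : (0:ℝ) ≤ 1 + ρ)]
      rw [Real.sqrt_mul_self (by positivity : (0:ℝ) ≤ 1 + ρ),
        Real.mul_self_sqrt (by positivity : (0:ℝ) ≤ 1 + ρ)]
    rw [h1, div_lt_iff₀ (by positivity)]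
    linarith
  obtain ⟨T, hT1, hT⟩ : ∃ T : ℝ, 1 ≤ T ∧ C ≤ g T := by
    refine ⟨√(1 + (2 + ρ) / (1 - C)), ?_, ?_⟩
    · rw [Real.one_le_sqrt]
      have : 0 ≤ (2 + ρ) / (1 - C) := div_nonneg (by linarith) (by linarith)
      linarith
    · have h1C : 0 < 1 - C := by linarith
      have hq : 0 ≤ (2 + ρ) / (1 - C) := div_nonneg (by linarith) h1C.le
      have hsq : √(1 + (2 + ρ) / (1 - C)) ^ 2 = 1 + (2 + ρ) / (1 - C) :=
        Real.sq_sqrt (by linarith)
      set T := √(1 + (2 + ρ) / (1 - C)) with hTdef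
      have hmul : (T ^ 2 - 1) * (1 - C) = 2 + ρ := by
        rw [hsq]
        field_simp
        ring
      simp only [hg]
      rw [le_div_iff₀ (hden T)]
      have hAM : √(1 + ρ + T ^ 2 + 2 * T * c) * √(1 + ρ + T ^ 2 - 2 * T * c) ≤ 1 + ρ + T ^ 2 := by
        have e1 := Real.sq_sqrt (hA T).le
        have e2 := Real.sq_sqrt (hB T).le
        nlinarith [sq_nonneg (√(1 + ρ + T ^ 2 + 2 * T * c) - √(1 + ρ + T ^ 2 - 2 * T * c))]
      rcases le_or_gt C 0 with h | h
      · have h5 : C * (√(1 + ρ + T ^ 2 + 2 * T * c) * √(1 + ρ + T ^ 2 - 2 * T * c)) ≤ 0 :=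
          mul_nonpos_of_nonpos_of_nonneg h (hden T).le
        have h6 : 0 ≤ T ^ 2 - 1 := by rw [hsq]; linarith
        linarith
      · have h5 : C * (√(1 + ρ + T ^ 2 + 2 * T * c) * √(1 + ρ + T ^ 2 - 2 * T * c)) ≤
            C * (1 + ρ + T ^ 2) := mul_le_mul_of_nonneg_left hAM h.le
        nlinarith
  obtain ⟨t, ht, hgt⟩ := intermediate_value_Icc (by linarith : (0:ℝ) ≤ T) hcont.continuousOn
    ⟨h0.le, hT⟩
  refine ⟨t, lt_of_le_of_ne ht.1 ?_, hgt⟩
  rintro rfl
  linarith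

/-- the points of the first circle -/
noncomputable def pX (r φ : ℝ) : EuclideanSpace ℝ (Fin 6) :=
  !₂[r * Real.cos φ, r * Real.sin φ, 0, 0, -1, 0]

/-- the points of the second circle -/
noncomputable def pZ (r φ : ℝ) : EuclideanSpace ℝ (Fin 6) :=
  !₂[0, 0, r * Real.cos φ, r * Real.sin φ, 1, 0]

/-- the points of the third plane -/
noncomputable def pY (t φ : ℝ) : EuclideanSpace ℝ (Fin 6) :=
  !₂[0, 0, 0, 0, t * Real.cos φ, t * Real.sin φ]

theorem norm_XY (r t φ ψ : ℝ) :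
    ‖pX r φ - pY t ψ‖ = √(1 + r ^ 2 + t ^ 2 + 2 * t * Real.cos ψ) := by
  rw [EuclideanSpace.norm_eq]
  congr 1
  simp only [pX, pY, Fin.sum_univ_six, PiLp.sub_apply, Real.norm_eq_abs, sq_abs]
  simp
  linear_combination r ^ 2 * Real.cos_sq_add_sin_sq φ + t ^ 2 * Real.cos_sq_add_sin_sq ψ

theorem norm_ZY (r t φ ψ : ℝ) :
    ‖pZ r φ - pY t ψ‖ = √(1 + r ^ 2 + t ^ 2 - 2 * t * Real.cos ψ) := by
  rw [EuclideanSpace.norm_eq]
  congr 1
  simp only [pZ, pY, Fin.sum_univ_six, PiLp.sub_apply, Real.norm_eq_abs, sq_abs]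
  simp
  linear_combination r ^ 2 * Real.cos_sq_add_sin_sq φ + t ^ 2 * Real.cos_sq_add_sin_sq ψ

theorem inner_XYZ (r t φ ψ χ : ℝ) :
    inner ℝ (pX r φ - pY t ψ) (pZ r χ - pY t ψ) = t ^ 2 - 1 := by
  simp only [pX, pZ, pY, PiLp.inner_apply, Fin.sum_univ_six, PiLp.sub_apply]
  simp
  linear_combination t ^ 2 * Real.cos_sq_add_sin_sq ψ + |Real.sin ψ| ^ 2 * sq_abs t +
    t ^ 2 * sq_abs (Real.sin ψ)

/-- the directions -/
noncomputable def ang (i : ℕ) : ℝ := 1 / ((i : ℝ) + 1)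

theorem cos_ang_injective : Function.Injective fun i : ℕ => Real.cos (ang i) := by
  intro i j h
  have hb : ∀ i : ℕ, ang i ∈ Set.Icc 0 Real.pi := by
    intro i
    unfold ang
    refine ⟨by positivity, ?_⟩
    have h1 : (1 : ℝ) / ((i : ℝ) + 1) ≤ 1 := by
      rw [div_le_one (by positivity)]
      have : (0 : ℝ) ≤ i := by positivity
      linarith
    linarith [Real.pi_gt_three]
  have h1 := Real.injOn_cos (hb i) (hb j) h
  unfold ang at h1
  rw [one_div, one_div, inv_inj] at h1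
  have h2 : (i : ℝ) = j := by linarith
  exact_mod_cast h2

theorem pX_injective {r : ℝ} (hr : r ≠ 0) : Function.Injective fun i : ℕ => pX r (ang i) := by
  intro i j h
  have h1 : pX r (ang i) 0 = pX r (ang j) 0 := by
    simp only at h
    rw [h]
  simp only [pX] at h1
  simp only [Matrix.cons_val_zero] at h1
  exact cos_ang_injective (mul_left_cancel₀ hr h1)

theorem pZ_injective {r : ℝ} (hr : r ≠ 0) : Function.Injective fun i : ℕ => pZ r (ang i) := by
  intro i j h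
  have h1 : pZ r (ang i) 2 = pZ r (ang j) 2 := by
    simp only at h
    rw [h]
  simp only [pZ] at h1
  simp at h1
  rcases h1 with h1 | h1
  · exact cos_ang_injective h1
  · exact absurd h1 hr

theorem pY_injective (t : ℕ → ℝ) (ht : ∀ i, 0 < t i) :
    Function.Injective fun i : ℕ => pY (t i) (ang i) := by
  intro i j h
  have h1 : pY (t i) (ang i) 4 = pY (t j) (ang j) 4 := by
    simp only at h
    rw [h]
  have h2 : pY (t i) (ang i) 5 = pY (t j) (ang j) 5 := by
    simp only at h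
    rw [h]
  simp only [pY] at h1 h2
  simp at h1 h2
  have e1 := Real.cos_sq_add_sin_sq (ang i)
  have e2 := Real.cos_sq_add_sin_sq (ang j)
  have h3 : t i ^ 2 = t j ^ 2 := by
    linear_combination -(t i ^ 2) * e1 + t j ^ 2 * e2 +
      (t i * Real.cos (ang i) + t j * Real.cos (ang j)) * h1 +
      (t i * Real.sin (ang i) + t j * Real.sin (ang j)) * h2
  have h4 : t i = t j := by
    have := ht i
    have := ht j
    exact (sq_eq_sq₀ (by linarith) (by linarith)).1 h3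
  rw [h4] at h1
  exact cos_ang_injective (mul_left_cancel₀ (ht j).ne' h1)

theorem X_ne_Z (r φ ψ : ℝ) : pX r φ ≠ pZ r ψ := by
  intro h
  have h1 : pX r φ 4 = pZ r ψ 4 := by rw [h]
  simp [pX, pZ] at h1
  linarith

theorem X_ne_Y {r : ℝ} (hr : r ≠ 0) (t φ ψ : ℝ) : pX r φ ≠ pY t ψ := by
  intro h
  have h1 : pX r φ 0 = pY t ψ 0 := by rw [h]
  have h2 : pX r φ 1 = pY t ψ 1 := by rw [h]
  simp [pX, pY, hr] at h1 h2
  have := Real.cos_sq_add_sin_sq φ
  rw [h1, h2] at this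
  norm_num at this

theorem Z_ne_Y {r : ℝ} (hr : r ≠ 0) (t φ ψ : ℝ) : pZ r φ ≠ pY t ψ := by
  intro h
  have h1 : pZ r φ 2 = pY t ψ 2 := by rw [h]
  have h2 : pZ r φ 3 = pY t ψ 3 := by rw [h]
  simp [pZ, pY, hr] at h1 h2
  have := Real.cos_sq_add_sin_sq φ
  rw [h1, h2] at this
  norm_num at this

theorem lower {α : ℝ} (h0 : 0 < α) (hπ : α < Real.pi) (n : ℕ) :
    (n / 3) ^ 3 ≤ B 6 n α := by
  classical
  set C := Real.cos α with hCdef
  have hC1 : C < 1 := by
    rw [hCdef, ← Real.cos_zero]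
    exact Real.cos_lt_cos_of_nonneg_of_le_pi le_rfl hπ.le h0
  have hC2 : -1 < C := by
    rw [hCdef, ← Real.cos_pi]
    exact Real.cos_lt_cos_of_nonneg_of_le_pi h0.le le_rfl hπ
  have hρ : 0 < (1 + C) / 2 := by linarith
  have hρC : -1 < C * (1 + (1 + C) / 2) := by nlinarith
  set r := √((1 + C) / 2) with hrdef
  have hr2 : r ^ 2 = (1 + C) / 2 := Real.sq_sqrt hρ.le
  have hr : r ≠ 0 := (Real.sqrt_pos.2 hρ).ne'
  have hex : ∀ j : ℕ, ∃ t : ℝ, 0 < t ∧
      (t ^ 2 - 1) / (√(1 + (1 + C) / 2 + t ^ 2 + 2 * t * Real.cos (ang j)) *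
        √(1 + (1 + C) / 2 + t ^ 2 - 2 * t * Real.cos (ang j))) = C := fun j =>
    exists_t hC1 hρ hρC _ (Real.abs_cos_le_one _)
  choose t ht0 ht using hex
  have hangle : ∀ i j k : ℕ,
      ∠ (pX r (ang i)) (pY (t j) (ang j)) (pZ r (ang k)) = α := by
    intro i j k
    unfold EuclideanGeometry.angle InnerProductGeometry.angle
    rw [vsub_eq_sub, vsub_eq_sub, inner_XYZ, norm_XY, norm_ZY, hr2, ht j, hCdef]
    exact Real.arccos_cos h0.le hπ.le
  set m := n / 3 with hm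
  let X := (Finset.range (n - 2 * m)).image fun i => pX r (ang i)
  let Y := (Finset.range m).image fun i => pY (t i) (ang i)
  let Z := (Finset.range m).image fun i => pZ r (ang i)
  have hXc : X.card = n - 2 * m := by
    rw [Finset.card_image_of_injective _ (pX_injective hr), Finset.card_range]
  have hYc : Y.card = m := by
    rw [Finset.card_image_of_injective _ (pY_injective t ht0), Finset.card_range]
  have hZc : Z.card = m := by
    rw [Finset.card_image_of_injective _ (pZ_injective hr), Finset.card_range]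
  have hXY : Disjoint X Y := by
    rw [Finset.disjoint_left]
    intro a ha hb
    simp only [X, Y, Finset.mem_image] at ha hb
    obtain ⟨i, _, rfl⟩ := ha
    obtain ⟨j, _, h⟩ := hb
    exact X_ne_Y hr _ _ _ h.symm
  have hXYZ : Disjoint (X ∪ Y) Z := by
    rw [Finset.disjoint_left]
    intro a ha hb
    simp only [X, Y, Z, Finset.mem_union, Finset.mem_image] at ha hb
    obtain ⟨j, _, h⟩ := hb
    rcases ha with ⟨i, _, rfl⟩ | ⟨i, _, rfl⟩
    · exact X_ne_Z _ _ _ h.symm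
    · exact Z_ne_Y hr _ _ _ h
  have hcard : (X ∪ Y ∪ Z).card = n := by
    rw [Finset.card_union_of_disjoint hXYZ, Finset.card_union_of_disjoint hXY, hXc, hYc, hZc]
    omega
  have h1 := le_B (X ∪ Y ∪ Z) α
  rw [hcard] at h1
  refine le_trans ?_ h1
  have h2 : (X ×ˢ Y ×ˢ Z) ⊆ (((X ∪ Y ∪ Z) ×ˢ (X ∪ Y ∪ Z) ×ˢ (X ∪ Y ∪ Z)).filter fun t =>
      t.1 ≠ t.2.1 ∧ t.1 ≠ t.2.2 ∧ t.2.1 ≠ t.2.2 ∧ ∠ t.1 t.2.1 t.2.2 = α) := by
    rintro ⟨a, b, c⟩ h
    rw [Finset.mem_product, Finset.mem_product] at h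
    obtain ⟨ha, hb, hc⟩ := h
    dsimp only at ha hb hc
    rw [Finset.mem_filter, Finset.mem_product, Finset.mem_product]
    refine ⟨⟨?_, ?_, ?_⟩, ?_⟩
    · exact Finset.mem_union_left _ (Finset.mem_union_left _ ha)
    · exact Finset.mem_union_left _ (Finset.mem_union_right _ hb)
    · exact Finset.mem_union_right _ hc
    · simp only [X, Y, Z, Finset.mem_image] at ha hb hc
      obtain ⟨i, _, rfl⟩ := ha
      obtain ⟨j, _, rfl⟩ := hb
      obtain ⟨k, _, rfl⟩ := hc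
      exact ⟨X_ne_Y hr _ _ _, X_ne_Z _ _ _, (Z_ne_Y hr _ _ _).symm, hangle i j k⟩
  have h3 := Finset.card_le_card h2
  rw [Finset.card_product, Finset.card_product, hXc, hYc, hZc] at h3
  unfold angleCount
  refine le_trans ?_ h3
  have h4 : m ≤ n - 2 * m := by omega
  calc m ^ 3 = m * (m * m) := by ring
    _ ≤ (n - 2 * m) * (m * m) := Nat.mul_le_mul_right _ h4

theorem result (α : ℝ) (h0 : 0 < α) (hπ : α < Real.pi) :
    (fun n : ℕ => (B 6 n α : ℝ)) =Θ[Filter.atTop] fun n : ℕ => (n : ℝ) ^ 3 := by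
  constructor
  · refine Asymptotics.IsBigO.of_bound 1 (Filter.Eventually.of_forall fun n => ?_)
    rw [one_mul, Real.norm_of_nonneg (by positivity), Real.norm_of_nonneg (by positivity)]
    exact_mod_cast B_le 6 n α
  · refine Asymptotics.IsBigO.of_bound 216 (Filter.eventually_atTop.2 ⟨4, fun n hn => ?_⟩)
    rw [Real.norm_of_nonneg (by positivity), Real.norm_of_nonneg (by positivity)]
    have h1 := lower h0 hπ n
    have h2 : n ≤ 6 * (n / 3) := by omega
    have h3 : n ^ 3 ≤ 216 * (n / 3) ^ 3 := by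
      calc n ^ 3 ≤ (6 * (n / 3)) ^ 3 := Nat.pow_le_pow_left h2 3
        _ = 216 * (n / 3) ^ 3 := by ring
    have h4 : n ^ 3 ≤ 216 * B 6 n α := h3.trans (Nat.mul_le_mul_left _ h1)
    exact_mod_cast h4

end Pool.Agent.Results.MP_6251d3_co.CubicAngles
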